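import Mathlib
import Pool.Agent.Helper943.LM.Aut
import Pool.Agent.H65R2.Prefix

/-!
Every automatic group has a finite generating set over which it has an automatic structure that
is prefix-closed and has the uniqueness property (answer to Q2).

Idea: start from an automatic structure `L` with uniqueness.  Every prefix `u` of a word of `L`
has a completion `u z(u)` in `L` with `z(u)` short and depending only on the state reached by `u`.
For `R` large the elements `ι(u)` represented by `u z(u)`, where the length of `u` is a multiple
of `R`, are all different, since the words `u z(u)` are.  Take as new generators the differences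
`ι(u)⁻¹ ι(u')` for `u'` an extension of `u` by `R` letters, and the differences `ι(u)⁻¹ w` where
`w` is a word of `L` extending `u` by fewer than `R` letters.
-/

set_option autoImplicit false

namespace Pool.Agent.Results.MP_7de2ad_al.PrefixClosedUnique

/-- The padded pair of two words: the two words are read synchronously, the shorter one is padded
at the end with the new symbol `none`. -/
def padPair {A : Type} (u v : List A) : List (Option A × Option A) :=
  (u.map some ++ List.replicate (v.length - u.length) none).zip
    (v.map some ++ List.replicate (u.length - v.length) none)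

/-- The element of `G` represented by a word over `A`, for a map `f : A → G`. -/
def value {G : Type} [Group G] {A : Type} (f : A → G) (w : List A) : G := (w.map f).prod

/-- `(A, L)` with the map `f : A → G` is an automatic structure on `G`: `L` is regular, every
element of `G` is represented by a word of `L`, and for each `x ∈ A ∪ {ε}` the set of padded pairs
of words `u, v` of `L` with `u x = v` in `G` is accepted by a finite state automaton. -/
def IsAutomaticStructure {G : Type} [Group G] {A : Type} (f : A → G) (L : Language A) : Prop :=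
  L.IsRegular ∧ (∀ g : G, ∃ w ∈ L, value f w = g) ∧
  ∀ x : Option A, Language.IsRegular
    ({p | ∃ u ∈ L, ∃ v ∈ L, value f u * x.elim 1 f = value f v ∧ p = padPair u v} :
      Language (Option A × Option A))

/-- `L` is prefix-closed. -/
def PrefixClosed {A : Type} (L : Language A) : Prop := ∀ u v : List A, u ++ v ∈ L → u ∈ L

/-- The uniqueness property: the evaluation map from `L` to `G` is a bijection. -/
def HasUniqueness {G : Type} [Group G] {A : Type} (f : A → G) (L : Language A) : Prop :=
  Set.BijOn (value f) L Set.univ

open Pool.Agent.Helper943.LM Pool.Agent.H65R2.Pre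

/-- If `G` is automatic then `G` has a finite symmetric generating set `B` not containing the
identity, and an automatic structure over `B` which is prefix-closed and has uniqueness. -/
theorem result (G : Type) [Group G]
    (hG : ∃ (A : Type) (_ : Finite A) (f : A → G) (L : Language A), IsAutomaticStructure f L) :
    ∃ (B : Finset G) (L : Language B), (∀ b ∈ B, b⁻¹ ∈ B) ∧ (1 : G) ∉ B ∧
      Subgroup.closure (B : Set G) = ⊤ ∧
      IsAutomaticStructure (fun b : B => (b : G)) L ∧ PrefixClosed L ∧
      HasUniqueness (fun b : B => (b : G)) L := by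
  classical
  obtain ⟨A, hA, f, L0, hreg, hsurj, hpair⟩ := hG
  have hU : Nonempty (UA G) := by
    apply uaOfAut
    obtain ⟨σ, hσ, W, hW⟩ := hreg
    letI : Fintype A := Fintype.ofFinite A
    refine ⟨A, inferInstance, f, σ, hσ, W, ?_, ?_⟩
    · intro g
      obtain ⟨w, hw, hg⟩ := hsurj g
      exact ⟨w, by rw [hW]; exact hw, hg⟩
    · intro x
      obtain ⟨τ, hτ, M, hM⟩ := hpair x
      refine ⟨τ, hτ, M, fun p => ?_⟩
      rw [hM]
      have hx : x.elim 1 f = (x.map f).getD 1 := by cases x <;> rfl
      constructor
      · rintro ⟨u, hu, v, hv, he, hp⟩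
        refine ⟨u, v, by rw [hW]; exact hu, by rw [hW]; exact hv, hp, ?_⟩
        rw [← hx]
        exact he
      · rintro ⟨u, v, hu, hv, hp, he⟩
        rw [hW] at hu hv
        refine ⟨u, hu, v, hv, ?_, hp⟩
        rw [hx]
        exact he
  obtain ⟨U⟩ := hU
  obtain ⟨D⟩ := exists_Dt U
  have hval : ∀ W : List D.B, value (fun b : D.B => (b : G)) W = (W.map Subtype.val).prod :=
    fun W => rfl
  have hcl : Subgroup.closure (D.B : Set G) = ⊤ := by
    rw [eq_top_iff]
    intro g _
    obtain ⟨V, hV, rfl⟩ := D.LG_surj g
    obtain ⟨W, rfl⟩ := D.lift V hV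
    apply Subgroup.list_prod_mem
    intro x hx
    rw [List.mem_map] at hx
    obtain ⟨y, -, rfl⟩ := hx
    exact Subgroup.subset_closure y.2
  refine ⟨D.B, D.L, D.B_inv, D.B_one, hcl, ⟨D.L_regular, ?_, ?_⟩, ?_, ?_, ?_, ?_⟩
  · intro g
    obtain ⟨V, hV, hg⟩ := D.LG_surj g
    obtain ⟨W, rfl⟩ := D.lift V hV
    exact ⟨W, hV, hg⟩
  · intro x
    obtain ⟨σ, hσ, W, hW⟩ := D.L_regular
    obtain ⟨F, hF, hF2⟩ := D.ft (x.elim 1 (fun b : D.B => (b : G)))
    obtain ⟨τ, hτ, M, hM⟩ := autoLemma (fun b : D.B => (b : G)) W
      (x.elim 1 (fun b : D.B => (b : G))) F hF (by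
        intro u v hu hv he t
        rw [hW] at hu hv
        have h1 := hF2 (u.map Subtype.val) (v.map Subtype.val) hu hv he t
        rw [← List.map_take, ← List.map_take] at h1
        exact h1)
    refine ⟨τ, hτ, M, ?_⟩
    ext p
    rw [hM]
    constructor
    · rintro ⟨u, v, hu, hv, hp, he⟩
      rw [hW] at hu hv
      exact ⟨u, hu, v, hv, he, hp⟩
    · rintro ⟨u, hu, v, hv, he, hp⟩
      exact ⟨u, v, by rw [hW]; exact hu, by rw [hW]; exact hv, hp, he⟩
  · intro u v h
    have h1 : (u ++ v).map Subtype.val ∈ D.LG := h
    rw [List.map_append] at h1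
    exact D.LG_prefix _ _ h1
  · exact fun _ _ => Set.mem_univ _
  · intro u hu v hv he
    have h1 := D.LG_inj _ _ hu hv he
    exact List.map_injective_iff.2 Subtype.val_injective h1
  · intro g _
    obtain ⟨V, hV, hg⟩ := D.LG_surj g
    obtain ⟨W, rfl⟩ := D.lift V hV
    exact ⟨W, hV, hg⟩

end Pool.Agent.Results.MP_7de2ad_al.PrefixClosedUnique
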